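import Pool.Agent.H891.OM.Asym

/-!
# Comparison of the minimal model programs of a log canonical pair and of its images

MP_a27c81_ag, Q1. Let `(V, Δ)` be a log canonical pair of dimension `n`, and `w` a divisor over `V`, i.e. a
prime divisor of a model of `V`; it can be exceptional, and its centre can be contained in a log canonical
centre. Let `o_w (K_V + Δ) ≥ 0` be the asymptotic order of vanishing of the sections of the
`m (K_V + Δ)` along `w` (the infimum of the orders of the divisors of the sections, divided by `m`).
Outcome 1 of the minimal model program replaces `(V, Δ)` by a pair `(X', Δ')` with `K_X' + Δ'` nef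
and increases the discrepancies. If `K_X' + Δ'` is semiample (abundance), the increment is

  `a (w, X', Δ') - a (w, V, Δ) = o_w (K_V + Δ)`,

and it is `0` if and only if `V ⇢ X'` is an isomorphism at the generic point of the centre of `w` on `V`. So
the numbers `o_w` describe the birational map `V ⇢ X'` and the locus where it is not an isomorphism.

Let `φ j : V ⇢ Y j` (`j < r`) be maps to pairs `(Y j, Δ j)`, usually of smaller dimension. We prove: if the
logarithmic differentials of the `φ j` at a point `x` of the centre of `w` are in a position for which the
Brascamp-Lieb inequality with the weights `p j` is true, then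

  **`o_w (K_V + Δ) ≤ ∑ p j o_w (φ j^* (K + Δ j))`.**

If `w` induces the multiple `i j` of the divisor `u j` over `Y j`, the right hand side is
`∑ p j i j o_{u j} (K + Δ j)`, i.e. `∑ p j i j (a (u j, Y' j, Δ' j) - a (u j, Y j, Δ j))` if the minimal
model program of `(Y j, Δ j)` ends with the good minimal model `(Y' j, Δ' j)`. We allow multivalued maps, i.e.
rational maps of a Galois covering `V'` of `V`; then one takes the average over the branches.

**Consequence for the minimal model program.** Let `(X', Δ')` and `(Y' j, Δ' j)` be good minimal models of
`(V, Δ)` and `(Y j, Δ j)`. At the points `x` with the condition, the locus in `V` where `V ⇢ X'` is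
not an isomorphism is contained in the union of the inverse images of the loci in the `Y j` where
`Y j ⇢ Y' j` is not an isomorphism. In particular a prime divisor of `V` can be contracted by the minimal
model program of `(V, Δ)` only if its image in some `Y j` is in the exceptional locus of `Y j ⇢ Y' j`, and
all discrepancies increase at most by the weighted sum of the increments for the `Y j`. These
consequences are explained here and are not formalized.

The assumptions:

(A) `L` is the function field of a Galois covering `V' → V` with the group `G`, `g = |G|`;
`Y j ⊆ L` are the function fields of the `Y j`, `y j = dim (Y j)`, i.e. there are rational maps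
`φ j : V' ⇢ Y j`, `j < r`. The branches of `φ j` are its conjugates `φ q`, `q = (j, σ)`, `σ` in `G`.

(B) `(V', Δ') ⇢ (Y j, Δ j)` are maps of orbifolds (`OrbMap`), where `K_V' + Δ' = π^* (K_V + Δ)`: for all
divisors `w` over `V'` (over a divisor `v` over `V`, with the ramification index `e`) the log discrepancy
`e (1 - δ v)` of `w` is in `[0, 1]`, and at most the log discrepancy `i (1 - δ u)` of the valuation
`i u` which `w` induces on `ℂ(Y j)`, if it is not trivial. If `V` is normal and `K_V + Δ` `ℚ`-Cartier
and log canonical, one can put `δ v = 1` for the exceptional divisors `v` of `V` without changing the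
sections of `m (K_V + Δ)`, and then, if the `(Y j, Δ j)` are log canonical, (B) is a condition for the
prime divisors of `V'` only. For example ((0') below) let `V° ⊆ V`, `Y°j ⊆ Y j` be smooth open
subvarieties with reduced boundaries, and `φ j` multivalued morphisms `V° → Y°j`; or `Δ = 0`,
`Δ j = 0`, `V` and `Y j` with canonical singularities, `V' → V` étale in codimension one, and `φ j`
arbitrary.

(C) The point. `x'` is a smooth point of `V'` over `x`, and `K_V + Δ` pulls back to `K_V' + Δ'` near
`x'`, where `Δ'` is a reduced divisor with simple normal crossings at `x'` (or `0`). In the theorem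
(`IsLogPoint`) `R` is a ring of functions which are regular at `x'`, stable under `G`, with the evaluation
`ε : R → ℂ` at `x'`; the `z i` in `R` are coordinates, `Δ'` is given by the product of the `z i` with
`i` in `Bd`, and the vector fields `H i = ∂ / ∂ z i`, or `z i ∂ / ∂ z i` for `i` in `Bd`, map `R`
into itself.

(D) The maps `φ q` are defined at `x'`. In the theorem (`IsLogChart`) `s q` are coordinates of `Y j`, or
of an orbifold chart of `(Y j, Δ j)`, at `φ q (x')`; the boundary (the part of `Δ j` with coefficient
`1`) is given by the product of the `s q l` with `l` in `Cd q`, and it is pulled back to `Δ'`. So the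
differentials `θ l = d (s q l)`, or `d (s q l) / s q l` for `l` in `Cd q`, are logarithmic
differentials on `V'`, i.e. their values `w q l i` on the `H i` are regular at `x'`. For the
coordinates `t` of `Y j`: `d (σ t l) = ∑ P l l' θ l'`.

(E) **The logarithmic Brascamp-Lieb condition at the point** (`BLLog`). There are weights
`p j = c j / d'` with `n = ∑ p j y j` and, for all linear subspaces `U` of the fibre `T` at `x'` of the
logarithmic tangent bundle of `(V', Δ')`,

  `dim U ≤ ∑ p j dim (dφ j (U))`,

where `dim (dφ j (U))` is the average over the branches `q = (j, σ)` of
`dim (dφ q (U)) = dim U - dim (U ∩ T q)`, and `T q = LogTan q` is the kernel of the logarithmic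
differential of `φ q`. At the points of the boundary where `φ q` is given by monomials, `dφ q` contains the
matrix of the exponents. (`U = T`: the `φ q` with `p j > 0` are log smooth at `x'`.)

(F) `v` (in the theorem) is a divisor over `V'` whose centre contains `x'` (`CentreThrough`).

**Results.**

(0) A class with (E): the logarithmic differentials of the coordinates of the charts `s q` are
those of the `z i`, `i ∈ S q`, for subsets `S q` of `{1, ..., n}` with `y j` elements, such that for all
`i` the sum of the `c j` over the `q = (j, σ)` with `i ∈ S q` is `d' g` (fractional coverings;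
Loomis-Whitney, Finner, Shearer).

(0') A class with (B): `V' → V` is unramified over all divisors which are not in `Z`, and the divisors
over them are mapped to divisors which are not in `ZY j`, for all `j`; the boundaries are reduced,
given by `Z` and `ZY j`.

(1) If for all `j` the average over the branches `φ q`, `q = (j, σ)`, of the asymptotic order of
vanishing of `φ q^* (K + Δ j)` along `v` is at most `α j` (`AsymImLe`), then the asymptotic order of
vanishing of `π^* (K_V + Δ)` along `v` is at most `∑ p j α j` (`AsymLe`).

Note that also the existence of sections is part of the conclusion. For `V' = V` the condition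
`AsymImLe` says that `i o_u (K + Δ j) ≤ α j`, where `v` induces `i u` on `ℂ(Y j)` (and it is true for
`α j = 0` and all `Y j` with `κ (K + Δ j) ≥ 0` if `v` induces the trivial valuation).

Examples. (a) Threefolds `V` with three maps to surfaces `Y j`, smooth at `x` and with independent
directions of the fibres: `p j = 1 / 2`. If `E` is a prime divisor of `V` through `x` whose images in the
`Y j` are curves which are not exceptional for `Y j ⇢ Y' j`, or all of `Y j`, then `E` is not contracted.
(b) `V → Y 1 × Y 2` étale at `x`: `p j = 1`, one gets the known behaviour of products. (c) If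
`K + Δ j` is semiample for all `j` (for example log Calabi-Yau), `o_w (K_V + Δ) = 0` for all `w` with
centre through `x`.

Comparison. `LogStableBaseLoci` (MP_c1e25c_ag) treats the stable base locus: there the sections of the
`Y j` have to be nonzero at the images of the point. Here they may vanish, and all valuations with centre
through `x` are considered. `OrbifoldMaps` (MP_bc213e_ag) gives sections of `m (K_V + Δ)` with a lower
bound of their divisors; here we need an upper bound of the divisors of zeros.

Proof. There are constant matrices `X` such that the linear map of the sum of the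
`Ω(log) (φ q (x')) ⊗ E_j` to `T^* ⊗ E` is an isomorphism for all `σ` in `G` simultaneously (see
`LogStableBaseLoci`). The norm of the product of the determinant and the sections `η j` of
`T D c j (K + Δ j)` is a section of `T D d' g ^ 2 (K_V + Δ)`; near `x'` it is a product of a
nowhere vanishing function and of the pull-backs of the `η j` by all branches, to the power `g`. So its
order along `v` is the sum of the orders of these pull-backs.

Conventions. `Place ℂ K`: discrete valuations of `K`, trivial on `ℂ`; `IsDivisorial`: given by a divisor
over `V`; `LiesOn w v e`: `w` lies over `v` with the ramification index `e`. `PairSec k M n δ {1} m 0 ω`: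
the rational `m`-canonical form `ω` (a function of the frame) is a section of `m (K + Δ)`, `Δ` the
divisor with the multiplicities `δ v` at the prime divisors over the variety with function field `M`.
`IsDualFrame t F`: coordinates `t` (a transcendence basis) and the dual vector fields `F`.
`NonzeroAt R ε a`: `a` is in `R` and `a (x') ≠ 0`. `pullVal H y₀ E m ω`: the value of the pull-back of
`ω` to `V'` on the frame `H`, computed with coordinates `y₀` of `V` and the dual frame `E`. (In the doc
comment of `pullVal` `H` is a frame of ordinary vector fields; here it is the logarithmic frame.)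
-/

set_option autoImplicit false

open FF Pool.Agent.W619.PQ Pool.Agent.W619.TW Pool.Agent.Y174 Pool.Agent.H891.OM

namespace Pool.Agent.Results.MP_a27c81_ag.DiscrepancyIncrements

/-- **Asymptotic orders of vanishing.** Let `V` be a projective variety of dimension `n` with function
field `K`, `L` the function field of a Galois covering `V' → V` with the group `G`, `g = |G|`, let
`Y j ⊆ L` be function fields of varieties of dimension `y j`, `x'` a point of `V'` with coordinates `z`,
`Δ'` given by the `z i` with `i` in `Bd`, and the logarithmic frame `H` (`IsLogPoint`), and `s q`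
logarithmic charts of the `Y j` at the images of `x'` under all the conjugates `q = (j, σ)` of the
maps `V' ⇢ Y j` (`IsLogChart`). Let `c j / d'` be weights.

(0) If the logarithmic differentials of the chart `s q` are those of the coordinates `z i`, `i ∈ S q`,
and for all `i` the sum of the `c j` over the `q = (j, σ)` with `i ∈ S q` is `d' g` (`IsLogCoord`),
then the conditions on the weights in (1) are satisfied.

(0') If the covering is unramified over all divisors `v` which are not in `Z`, and maps the divisors
over them to divisors which are not in `ZY j` (for all `j`), then the maps are maps of orbifolds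
(`OrbMap`) for the reduced boundaries given by `Z` and `ZY j`.

(1) Assume that `∑ c j y j = n d'`, and that the logarithmic Brascamp-Lieb condition is satisfied at
the point (`BLLog`). Let `Δ`, `Δ j` be divisors for which the maps are maps of orbifolds, and `v` a
divisor over `V'` whose centre contains `x'` (`CentreThrough`). If, for all `j`, the average over the
branches `q = (j, σ)` of the asymptotic orders of vanishing of `φ q^* (K + Δ j)` along `v` is at most
`α j` (`AsymImLe`), then the asymptotic order of vanishing of `K_V + Δ` along `v` is at most
`∑ (c j / d') α j` (`AsymLe`). -/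
theorem result {K : Type} [Field K] [Algebra ℂ K] [Algebra.EssFiniteType ℂ K] {n : ℕ}
    (hn : Algebra.trdeg ℂ K = n) (L : IntermediateField K (AlgebraicClosure K))
    [FiniteDimensional K L] [IsGalois K L] {r : ℕ} (Y : Fin r → IntermediateField ℂ L)
    [∀ j, Algebra.EssFiniteType ℂ (Y j)] (y : Fin r → ℕ)
    (hy : ∀ j, Algebra.trdeg ℂ (Y j) = y j) (R : Subalgebra ℂ L) (ε : R →ₐ[ℂ] ℂ)
    (z : Fin n → L) (Bd : Finset (Fin n)) (H : Fin n → Derivation ℂ L L)
    (_ : IsLogPoint R z Bd H) (t : ∀ j, Fin (y j) → Y j)
    (F : ∀ j, Fin (y j) → Derivation ℂ (Y j) (Y j)) (hF : ∀ j, IsDualFrame (t j) (F j))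
    (s : ∀ q : Fin r × (L ≃ₐ[K] L), Fin (y q.1) → L)
    (Cd : ∀ q : Fin r × (L ≃ₐ[K] L), Set (Fin (y q.1)))
    (w : ∀ q : Fin r × (L ≃ₐ[K] L), Fin (y q.1) → Fin n → L)
    (P : ∀ q : Fin r × (L ≃ₐ[K] L), Matrix (Fin (y q.1)) (Fin (y q.1)) L)
    (hch : IsLogChart R H t s Cd w P) (c : Fin r → ℕ) (d' : ℕ) (hd' : 1 ≤ d') :
    (∀ S, IsLogCoord w S c d' → ∑ j, c j * y j = n * d' ∧ BLLog R ε w c d') ∧
    (∀ (Z : Set (Place ℂ K)) (ZY : ∀ j, Set (Place ℂ (Y j))),
      (∀ (w : Place ℂ L) (v : Place ℂ K) (e : ℕ), IsDivisorial w n → LiesOn w v e → v ∉ Z →
        e = 1 ∧ ∀ (j : Fin r) (u : Place ℂ (Y j)) (i : ℕ), LiesOn w u i → u ∉ ZY j) →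
      OrbMap n L (Z.indicator 1) Y fun j => (ZY j).indicator 1) ∧
    (∑ j, c j * y j = n * d' → BLLog R ε w c d' →
      ∀ (δ : Place ℂ K → ℝ) (δY : ∀ j, Place ℂ (Y j) → ℝ), OrbMap n L δ Y δY →
        ∀ v : Place ℂ L, CentreThrough R ε v → ∀ α : Fin r → ℝ,
          (∀ j, AsymImLe (fun σ => P (j, σ)) (F j) (δY j) v (α j)) →
          AsymLe H δ v (∑ j, (c j : ℝ) / d' * α j)) := by
  classical
  refine ⟨fun S hS => log_shearer hS.1 hS.2.1 fun i => ?_, fun Z ZY hZ w v e hw hov => ?_,
    fun hcy hBL δ δY horb v hv α hα => ?_⟩
  · rw [Finset.sum_filter, ← hS.2.2 i]
  · by_cases hv : v ∈ Z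
    · rw [Set.indicator_of_mem hv, Pi.one_apply, sub_self, mul_zero]
      refine ⟨le_refl _, zero_le_one, fun j u i _ => ?_⟩
      refine mul_nonneg (Nat.cast_nonneg i) (sub_nonneg.2 ?_)
      exact Set.indicator_apply_le' (fun _ => le_refl _) fun _ => zero_le_one
    · obtain ⟨he, hu⟩ := hZ w v e hw hov hv
      rw [Set.indicator_of_notMem hv, he, Nat.cast_one, sub_zero, mul_one]
      refine ⟨zero_le_one, le_refl _, fun j u i hui => ?_⟩
      show (1 : ℝ) ≤ i * (1 - (ZY j).indicator 1 u)
      rw [Set.indicator_of_notMem (hu j u i hui), sub_zero, mul_one]
      exact_mod_cast hui.1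
  · exact asym inferInstance hn hy (fun j => (hF j).1) hch (fun j => (hF j).2) hd' hcy hBL
      (orb_loc horb d') hv hα

end Pool.Agent.Results.MP_a27c81_ag.DiscrepancyIncrements
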