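import Pool.Agent.H908.VB3

/-!
# Logarithmic abundance for quotients of products of open curves

Let `U_i = C_i ∖ B_i` (`i = 1, ..., r`) be smooth complex curves of arbitrary genera; here `C_i` is
projective and `B_i` is a finite set of points, possibly empty. Let `U = U_1 × ... × U_r`, let `G` be a
group of birational automorphisms of `U` which preserves the boundary (automorphisms of `U`, for
instance), and let `(X, D)` be a projective manifold with a divisor with normal crossings such that
`X ∖ D` has a proper birational morphism to `U / G`. One of the following conditions is assumed.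

* (a) `G` is finite and permutes the factors, and its elements which map a factor `U_i` to itself act
  on `U_i` trivially or by an involution with quotient `P¹` or `A¹`. For instance `U = C ^ r` for an
  open curve `C` and `G` is any group of permutations; or `U = (ℂ^*) ^ r` and `G` is any group of
  signed permutations of the coordinates.
* (b) `G` is finite and permutes the factors, and it is admissible: the stabilizers in the group
  generated by the involutive transpositions of two factors satisfy the condition in (a), and all the
  other elements `g ≠ 1` of `G` which fix pointwise a prime divisor outside the boundary have age at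
  least one. The other elements act on the curves in an arbitrary way.
* (c) the genera are at least two and the only automorphisms `≠ 1` of the open curves `U_i` are
  involutions with quotient `P¹` or `A¹` (general open curves, isomorphic curves are allowed); `G` is
  **any** group of birational automorphisms which preserves the boundary.

Let `q_i = g(C_i) + max (|B_i| - 1, 0)` be the logarithmic irregularity of `U_i`, and let `b_i` be the
number of elements of the block of `U_i`: `U_i` itself and the factors `U_j` for which `G` contains an
involutive transposition of `U_i` and `U_j`.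

The theorem:

1. If `b_i > q_i` for some `i`, or in the cases (a) and (c) `G` contains a reflection of a factor, then
   `X ∖ D` is `A¹`-uniruled and `K_X + D` is not pseudo-effective.
2. In all the other cases `h' ≤ κ(K_X + D) ≤ ν(K_X + D) ≤ h`, where `h` is the number of the hyperbolic
  curves `U_i` (`2 g - 2 + |B_i| > 0`) and `h'` is the number of those with `b_i ≠ q_i` or `|B_i| = 1`.
3. So if `b_i ≠ q_i` for all hyperbolic curves `U_i` with `|B_i| ≠ 1`, then `κ(K_X + D) = ν(K_X + D) = h`.

For example, the theorem 3 applies to all admissible groups without transpositions (`b_i = 1`), and to the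
products of curves with one point at infinity and all their groups of permutations. The value is different
for `b_i = q_i` and `|B_i| ≠ 1` in general: for `q ≥ 2` the symmetric product of `q` copies of a projective
curve of genus `q` is birational to the Jacobian, and the symmetric product of `q` copies of the line
without `q + 1` points is `(ℂ^*) ^ q`, with `κ = ν = 0`. For a hyperbolic open curve `C`, a group `G` of
permutations of `r` factors and `r < q(C)` the theorem says that `C ^ r / G` is of logarithmic general
type.

Proof. Let `b < q_i`. There are `b + 1` logarithmic differentials `f_l dW` of the curve which are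
linearly independent, chosen in a `G`-equivariant way. The determinants `d_l = det (f_j (x_i))_{j ≠ l}`
are logarithmic forms and vanish on the fixed divisors of the transpositions, and the ratios
`v_l = d_l / d_{b+1}` are the solution of the linear equations `∑ v_l f_l (x_i) = ± f_{b+1} (x_i)`. They
are algebraically independent, also together for all blocks, since the fields of functions of
the factors are linearly disjoint. For a block of `b = q_i = g` curves with one point `p` at infinity
one takes the determinant `d` of the regular differentials. It is regular at `p`, so that its powers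
`d ^ m` can be multiplied by functions `y (x_i)` with a pole of order at most `m` at `p`. Products of
these forms, multiplied over the orbit of `G`, give enough pluricanonical forms with logarithmic poles:
the age is at least one at all the other divisors with nontrivial inertia outside the boundary. The
upper bound for `ν` comes from the product of the curves. For `b > q_i` there is by Riemann-Roch for a
general effective divisor `E` of degree `b` on `C_i` a function `f` with poles `E` which vanishes on
`B_i`, and the zeros of `f - c` define a nonconstant map of `A¹` to the symmetric product of `U_i`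
through the point `E`.
-/

set_option autoImplicit false
set_option linter.overlappingInstances false

open FF IntermediateField
open Pool.Agent.W619.PQ (IsDivisorial Inert)
open Pool.Agent.W619.PL (IsA1Uniruled)
open Pool.Agent.W619.TW (IsPsef KodGe NumLe)
open Pool.Agent.K1H6.PQ (age)
open Pool.Agent.Helper11K9.OD (regularForms)

namespace Pool.Agent.Results.MP_a27c81_ag.ReflectionQuotientsLogAbundance

/-- The genus of the curve with the field of functions `F`: the dimension of the space of regular
differential forms. -/
noncomputable def genus (F : Type) [Field F] [Algebra ℂ F] : ℕ :=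
  Module.finrank ℂ (regularForms F)

section

variable {L : Type} [Field L] [Algebra ℂ L] {r : ℕ}

/-- The boundary of the product of the open curves `C i ∖ B i`: the restriction of the place `Q` of `L`
to some `M i` is a positive multiple of a place of `B i`. (The centre of `Q` is not on the product of
the open curves.) -/
def Boundary (M : Fin r → IntermediateField ℂ L) (B : ∀ i, Finset (Place ℂ (M i)))
    (Q : Place ℂ L) : Prop :=
  ∃ i, ∃ p ∈ B i, ∃ e : ℕ, 0 < e ∧ ∀ z : M i, Q.ord (z : L) = e * p.ord z

/-- The boundary of the quotient: the places `v` of the field of invariants which lie under a place `Q`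
of the boundary of the product. -/
def QuotientBoundary (M : Fin r → IntermediateField ℂ L) (B : ∀ i, Finset (Place ℂ (M i)))
    (G : Subgroup (L ≃ₐ[ℂ] L)) (v : Place ℂ (fixedField G)) : Prop :=
  ∃ Q : Place ℂ L, Boundary M B Q ∧
    ∃ e : ℕ, 0 < e ∧ ∀ z : fixedField G, Q.ord (z : L) = e * v.ord z

/-- The group `G` permutes the factors. (`M i` is the field of functions of the factor `i`.) -/
def PermutesFactors (M : Fin r → IntermediateField ℂ L) (G : Subgroup (L ≃ₐ[ℂ] L)) : Prop :=
  ∀ g ∈ G, ∀ i, ∃ j, ∀ z ∈ M i, g z ∈ M j

/-- The group `G` preserves the boundary: if `g ∈ G` maps `M i` to `M j`, then the places of `M i`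
which correspond under `g` to the places of `B j` are in `B i`. -/
def PreservesBoundary (M : Fin r → IntermediateField ℂ L) (B : ∀ i, Finset (Place ℂ (M i)))
    (G : Subgroup (L ≃ₐ[ℂ] L)) : Prop :=
  ∀ g ∈ G, ∀ i j, (∀ z ∈ M i, g z ∈ M j) → ∀ p ∈ B j, ∃ q ∈ B i,
    ∀ (z : M i) (z' : M j), (z' : L) = g z → q.ord z = p.ord z'

/-- An element of `G` which maps the factor `i` to itself acts on it trivially or by an involution for
which the quotient of the open curve `C i ∖ B i` is the line or the affine line, that is, the fixed
field is `ℂ(t)` for some `t` which has poles at all the points of `B i`. -/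
def LineStabilizers (M : Fin r → IntermediateField ℂ L) (B : ∀ i, Finset (Place ℂ (M i)))
    (G : Subgroup (L ≃ₐ[ℂ] L)) : Prop :=
  ∀ g ∈ G, ∀ i, (∀ z ∈ M i, g z ∈ M i) → (∀ z ∈ M i, g z = z) ∨
    ((∀ z ∈ M i, g (g z) = z) ∧ ∃ t : M i, (∀ z : M i, g (z : L) = z ↔ z ∈ ℂ⟮t⟯) ∧
      ∀ p ∈ B i, p.ord t < 0)

/-- The genera are at least two, and the automorphisms `≠ 1` of the open curves `C i ∖ B i` are
involutions whose quotient is the line or the affine line. -/
def GeneralOpenCurves (M : Fin r → IntermediateField ℂ L) (B : ∀ i, Finset (Place ℂ (M i))) : Prop :=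
  (∀ i, 2 ≤ genus (M i)) ∧ ∀ i (s : M i ≃ₐ[ℂ] M i), s ≠ 1 →
    (∀ p ∈ B i, ∃ q ∈ B i, ∀ z, q.ord z = p.ord (s z)) →
    (∀ z, s (s z) = z) ∧ ∃ t : M i, (∀ z, s z = z ↔ z ∈ ℂ⟮t⟯) ∧ ∀ p ∈ B i, p.ord t < 0

/-- `g` is a reflection of the factor `i`: it is an automorphism `g ≠ 1` which maps the factor `i`
to itself and is trivial on all the other factors. -/
def IsReflection (M : Fin r → IntermediateField ℂ L) (g : L ≃ₐ[ℂ] L) (i : Fin r) : Prop :=
  g ≠ 1 ∧ (∀ z ∈ M i, g z ∈ M i) ∧ ∀ l, l ≠ i → ∀ z ∈ M l, g z = z

/-- `g` is an involutive transposition of the factors `i ≠ j`: it exchanges them, it is trivial on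
all the other factors, and `g ^ 2 = 1`. -/
def IsTransposition (M : Fin r → IntermediateField ℂ L) (g : L ≃ₐ[ℂ] L) (i j : Fin r) : Prop :=
  i ≠ j ∧ (∀ z ∈ M i, g z ∈ M j) ∧ (∀ z ∈ M j, g z ∈ M i) ∧
    (∀ l, l ≠ i → l ≠ j → ∀ z ∈ M l, g z = z) ∧ ∀ z, g (g z) = z

/-- The block of the factor `i`: it consists of `i` and of the `j` such that `G` contains an
involutive transposition of `i` and `j`. -/
def block (M : Fin r → IntermediateField ℂ L) (G : Subgroup (L ≃ₐ[ℂ] L)) (i : Fin r) :
    Set (Fin r) :=
  {j | j = i ∨ ∃ g ∈ G, IsTransposition M g i j}

/-- The subgroup of `G` which is generated by its involutive transpositions. -/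
def transpositionGroup (M : Fin r → IntermediateField ℂ L) (G : Subgroup (L ≃ₐ[ℂ] L)) :
    Subgroup (L ≃ₐ[ℂ] L) :=
  Subgroup.closure {g | g ∈ G ∧ ∃ i j, IsTransposition M g i j}

/-- The group is admissible: the stabilizers in the group generated by its involutive transpositions
act on the open curves trivially or by involutions whose quotient is the line or the affine line, and
every element `g ≠ 1` of `G` which fixes pointwise a prime divisor `w` outside the boundary
(`Inert w g`) is an involutive transposition or has age at least one. Here
`age M (fun _ => 1) π (fun _ _ => 0) g`, where `π` is the permutation of the factors given by `g`, is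
the sum over the cycles of `π`, say of length `l`, of `(l - 1) / 2`, plus `1 / t` if `g ^ l` acts on the
factors of the cycle with order `t ≥ 2`. -/
structure IsAdmissible (M : Fin r → IntermediateField ℂ L) (B : ∀ i, Finset (Place ℂ (M i)))
    (G : Subgroup (L ≃ₐ[ℂ] L)) : Prop where
  stabilizers : LineStabilizers M B (transpositionGroup M G)
  age : ∀ g ∈ G, g ≠ 1 → (∃ w : Place ℂ L, IsDivisorial w r ∧ ¬ Boundary M B w ∧ Inert w g) →
    (∃ i j, IsTransposition M g i j) ∨ ∀ π : Equiv.Perm (Fin r),
      (∀ i, ∀ z ∈ M i, g z ∈ M (π i)) → 1 ≤ age M (fun _ => 1) π (fun _ _ => 0) g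

/-- Some block has more elements than the logarithmic irregularity of its curves, or `G` contains a
reflection of a factor and all its stabilizers act trivially or by involutions with quotient the line
or the affine line. -/
def IsNegative (M : Fin r → IntermediateField ℂ L) (B : ∀ i, Finset (Place ℂ (M i)))
    (G : Subgroup (L ≃ₐ[ℂ] L)) : Prop :=
  (∃ i, genus (M i) + ((B i).card - 1) < (block M G i).ncard) ∨
    (LineStabilizers M B G ∧ ∃ g ∈ G, ∃ i, IsReflection M g i)

end

/-- **Logarithmic abundance for quotients of products of open curves.** Let `M i` (`i < r`) be the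
fields of functions of smooth projective curves `C i`, `B i` finite sets of points of `C i` (possibly
empty), and `L` the field of functions of the product `U` of the open curves `C i ∖ B i`. Let `G` be a
group of birational automorphisms of `U` which preserves the boundary; assume that `G` is finite,
permutes the factors, and is admissible or its stabilizers act on the open curves trivially or by
involutions whose quotient is the line or the affine line, or that the genera are at least two and all
automorphisms `≠ 1` of the open curves are such involutions. Let `(X, D)` be a projective manifold with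
a divisor with normal crossings such that `X ∖ D` has a proper birational morphism to `U / G`; its
field of functions is `fixedField G`, and the divisors at infinity are given by `QuotientBoundary`.

1. If the block of some `C i` has more elements than the logarithmic irregularity
   `q i = g (C i) + max (|B i| - 1, 0)`, or the stabilizers are as above and `G` contains a reflection of
   a factor, then `X ∖ D` is `A¹`-uniruled and `K + D` is not pseudo-effective.
2. Otherwise `κ (K + D)` is at least the number of the curves with `2 g - 2 + |B i| > 0` for which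
   `|B i| = 1` or the block does not have exactly `q i` elements, and `ν (K + D)` is at most the number
   of all curves with `2 g - 2 + |B i| > 0`.
3. In particular, if the block of a curve `C i` with `2 g - 2 + |B i| > 0` and `|B i| ≠ 1` never has
   exactly `q i` elements, then `κ (K + D) = ν (K + D)` is the number of the curves with
   `2 g - 2 + |B i| > 0`. -/
theorem result {L : Type} [Field L] [Algebra ℂ L] {r : ℕ} (M : Fin r → IntermediateField ℂ L)
    (hess : ∀ i, Algebra.EssFiniteType ℂ (M i)) (htr : ∀ i, Algebra.trdeg ℂ (M i) = 1)
    (hL : Algebra.trdeg ℂ L = r) (hsup : (⨆ i, M i) = ⊤) (B : ∀ i, Finset (Place ℂ (M i)))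
    (G : Subgroup (L ≃ₐ[ℂ] L)) (hB : PreservesBoundary M B G)
    (hG : (Finite G ∧ PermutesFactors M G ∧ (IsAdmissible M B G ∨ LineStabilizers M B G)) ∨
      GeneralOpenCurves M B) :
    (IsNegative M B G → IsA1Uniruled ℂ (fixedField G) r (QuotientBoundary M B G) ∧
      ¬ IsPsef ℂ (fixedField G) r (QuotientBoundary M B G)) ∧
    (¬ IsNegative M B G →
      KodGe ℂ (fixedField G) r (QuotientBoundary M B G)
        {i | 2 < 2 * genus (M i) + (B i).card ∧ ((B i).card = 1 ∨
          (block M G i).ncard ≠ genus (M i) + ((B i).card - 1))}.ncard ∧
      NumLe ℂ (fixedField G) r (QuotientBoundary M B G)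
        {i | 2 < 2 * genus (M i) + (B i).card}.ncard) ∧
    (¬ IsNegative M B G →
      (∀ i, 2 < 2 * genus (M i) + (B i).card → (B i).card ≠ 1 →
        (block M G i).ncard ≠ genus (M i) + ((B i).card - 1)) →
      KodGe ℂ (fixedField G) r (QuotientBoundary M B G)
        {i | 2 < 2 * genus (M i) + (B i).card}.ncard ∧
      NumLe ℂ (fixedField G) r (QuotientBoundary M B G)
        {i | 2 < 2 * genus (M i) + (B i).card}.ncard) := by
  obtain ⟨hfin, hperm, hst⟩ : Finite G ∧ PermutesFactors M G ∧
      (IsAdmissible M B G ∨ LineStabilizers M B G) := by
    rcases hG with h | ⟨h1, h2⟩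
    · exact h
    · obtain ⟨h3, h4, h5⟩ := Pool.Agent.H908.UC.general_pairs M hess htr hL hsup h1 B h2 G hB
      exact ⟨h3, h4, Or.inr h5⟩
  have hTI : ∀ (g : L ≃ₐ[ℂ] L) i j,
      Pool.Agent.H908.TA.TI M (fun _ => 1) g i j ↔ IsTransposition M g i j := by
    intro g i j
    constructor
    · rintro ⟨⟨a1, -, -, a2, a3, a4⟩, a5⟩
      exact ⟨a1, a2, a3, a4, a5⟩
    · rintro ⟨a1, a2, a3, a4, a5⟩
      exact ⟨⟨a1, rfl, rfl, a2, a3, a4⟩, a5⟩
  have hTG : Pool.Agent.H908.VA.TG M G = transpositionGroup M G := by
    unfold Pool.Agent.H908.VA.TG transpositionGroup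
    congr 1
    ext g
    simp only [hTI]
  have hbl : ∀ i, Pool.Agent.H908.TA.bl M (fun _ => 1) G i = block M G i := by
    intro i
    ext j
    constructor
    · rintro (h3 | ⟨g, hg, h4⟩)
      · exact Or.inl h3
      · exact Or.inr ⟨g, hg, (hTI g i j).1 h4⟩
    · rintro (h3 | ⟨g, hg, h4⟩)
      · exact Or.inl h3
      · exact Or.inr ⟨g, hg, (hTI g i j).2 h4⟩
  have hG' : (Pool.Agent.H908.UC.StabL M B (Pool.Agent.H908.VA.TG M G) ∧
      ∀ g ∈ G, g ≠ 1 → (∃ w : Place ℂ L, IsDivisorial w r ∧ ¬ Pool.Agent.H908.UC.Bdy M B w ∧
        Inert w g) →
      (∃ i j, Pool.Agent.H908.TA.TI M (fun _ => 1) g i j) ∨ ∀ π : Equiv.Perm (Fin r),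
        (∀ i, ∀ z ∈ M i, g z ∈ M (π i)) → 1 ≤ age M (fun _ => 1) π (fun _ _ => 0) g) ∨
      Pool.Agent.H908.UC.StabL M B G := by
    rcases hst with h | h
    · left
      refine ⟨?_, fun g hg hg1 hw => ?_⟩
      · rw [hTG]
        exact h.stabilizers
      · rcases h.age g hg hg1 hw with ⟨i, j, h1⟩ | h1
        · exact Or.inl ⟨i, j, (hTI g i j).2 h1⟩
        · exact Or.inr h1
    · exact Or.inr h
  have h := Pool.Agent.H908.VA.mainL2 M hess htr hL hsup B G hperm hB hG' (QuotientBoundary M B G)
    (fun v => by
      constructor
      · rintro ⟨Q, hQ, e, he⟩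
        exact ⟨Q, e, he, hQ⟩
      · rintro ⟨Q, e, he, hQ⟩
        exact ⟨Q, hQ, e, he⟩)
  have hneg : ((∃ i, Module.finrank ℂ (regularForms (M i)) + ((B i).card - 1) <
        (Pool.Agent.H908.TA.bl M (fun _ => 1) G i).ncard) ∨
      (Pool.Agent.H908.UC.StabL M B G ∧
        ∃ g ∈ G, g ≠ 1 ∧ ∃ i, (∀ z ∈ M i, g z ∈ M i) ∧ ∀ l, l ≠ i → ∀ z ∈ M l, g z = z)) ↔
      IsNegative M B G := by
    have h1 : (∃ g ∈ G, g ≠ 1 ∧ ∃ i, (∀ z ∈ M i, g z ∈ M i) ∧ ∀ l, l ≠ i → ∀ z ∈ M l, g z = z) ↔
        ∃ g ∈ G, ∃ i, IsReflection M g i := by
      constructor
      · rintro ⟨g, hg, hg1, i, h2⟩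
        exact ⟨g, hg, i, hg1, h2⟩
      · rintro ⟨g, hg, i, hg1, h2⟩
        exact ⟨g, hg, hg1, i, h2⟩
    rw [h1]
    simp only [hbl]
    rfl
  rw [hneg] at h
  simp only [hbl] at h
  refine ⟨h.1, h.2, fun h1 h2 => ?_⟩
  have h3 : {i | 2 < 2 * genus (M i) + (B i).card ∧ ((B i).card = 1 ∨
      (block M G i).ncard ≠ genus (M i) + ((B i).card - 1))} =
      {i | 2 < 2 * genus (M i) + (B i).card} := by
    ext i
    change (_ ∧ (_ ∨ _)) ↔ _
    refine ⟨fun h4 => h4.1, fun h4 => ⟨h4, ?_⟩⟩
    by_cases h5 : (B i).card = 1
    · exact Or.inl h5
    · exact Or.inr (h2 i h4 h5)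
  have h4 := h.2 h1
  change KodGe ℂ (fixedField G) r (QuotientBoundary M B G)
    {i | 2 < 2 * genus (M i) + (B i).card ∧ ((B i).card = 1 ∨
      (block M G i).ncard ≠ genus (M i) + ((B i).card - 1))}.ncard ∧ _ at h4
  rw [h3] at h4
  exact h4

end Pool.Agent.Results.MP_a27c81_ag.ReflectionQuotientsLogAbundance
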